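import Pool.Agent.K.MP_9ed2cf_gt.C9

set_option autoImplicit false

open Pool.Agent.P.MP_9ed2cf_gt

theorem Pool.Agent.Results.MP_9ed2cf_gt.GenusOne.result (p q r : ℤ) (hp : Odd p) (hq : Odd q)
    (hr : Odd r)
    (h : (0 < p ∧ 0 < q ∧ 0 < r) ∨ (p < 0 ∧ q < 0 ∧ r < 0) ∨ |p| = 1 ∨ |q| = 1 ∨ |r| = 1) :
    ∃ a : ℤ × ℤ →₀ ℤ,
      (∀ s0 s1 Y : ℂ, s0 ≠ 0 → s1 ≠ 0 → Y ^ 2 = (s0 ^ 2 - 1) * (1 - s1 ^ 2) →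
        LG s0 s1 Y (pretzel p q r) =
          a.sum fun m x => (x : ℂ) * (s0 ^ 2) ^ m.1 * (s1 ^ 2) ^ m.2) ∧
      (∀ i j k l : ℤ, |a (i + k, j + l)| * |a (i - k, j - l)| ≤ |a (i, j)| ^ 2) ∧
      ∀ m : ℤ × ℤ, ((m.1 : ℝ), (m.2 : ℝ)) ∈
        convexHull ℝ ((fun m : ℤ × ℤ => ((m.1 : ℝ), (m.2 : ℝ))) '' {m | a m ≠ 0}) → a m ≠ 0 :=
  main p q r hp hq hr h
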