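import Mathlib
import Pool.Agent.P.MP_9ed2cf_gt.H14Defs
import Pool.Agent.K.MP_9ed2cf_gt.C10

set_option autoImplicit false

namespace Pool.Agent.Results.MP_9ed2cf_gt.NoInteriorZeros

open Pool.Agent.P.MP_9ed2cf_gt.H14

/-- The coefficient array `a i j` of the Links-Gould polynomial of every alternating link has no
interior zeros: every lattice point of the convex hull of its support lies in the support.
Here `t0 = s0^2`, `t1 = s1^2`. -/
theorem result (D : List Slice) (hD : IsAlternating D) (k : Fin 4) :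
    ∃ a : ℤ × ℤ →₀ ℤ,
      (∀ (A : Type) [CommRing A] (s0 s1 Y : Aˣ),
        (Y : A) ^ 2 = ((s0 : A) ^ 2 - 1) * (1 - (s1 : A) ^ 2) →
        LG s0 s1 Y D k = a.sum fun ij n =>
          (n : A) * (((s0 ^ 2) ^ ij.1 * (s1 ^ 2) ^ ij.2 : Aˣ) : A)) ∧
      ∀ p : ℤ × ℤ, ((p.1 : ℝ), (p.2 : ℝ)) ∈ convexHull ℝ
        ((fun q : ℤ × ℤ => ((q.1 : ℝ), (q.2 : ℝ))) '' {q | a q ≠ 0}) → a p ≠ 0 :=
  Pool.Agent.P.MP_9ed2cf_gt.Nz.main D hD k

end Pool.Agent.Results.MP_9ed2cf_gt.NoInteriorZeros
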