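import Mathlib
import Pool.Agent.P.MP_9ed2cf_gt.H14Defs
import Pool.Agent.K.MP_9ed2cf_gt.C3

set_option autoImplicit false

namespace Pool.Agent.Results.MP_9ed2cf_gt.SignAlternation

open Pool.Agent.P.MP_9ed2cf_gt.H14

/-- Ishii's conjecture: the Links-Gould polynomial of every alternating link has coefficients
`a i j = ε (-1)^(i+j) b i j` with `b i j ≥ 0`.  Here `t0 = s0^2`, `t1 = s1^2`. -/
theorem result (D : List Slice) (hD : IsAlternating D) (k : Fin 4) :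
    ∃ (ε : ℤˣ) (b : ℤ × ℤ →₀ ℕ), ∀ (A : Type) [CommRing A] (s0 s1 Y : Aˣ),
      (Y : A) ^ 2 = ((s0 : A) ^ 2 - 1) * (1 - (s1 : A) ^ 2) →
      LG s0 s1 Y D k = b.sum fun ij n =>
        (((((ε * (-1) ^ (ij.1 + ij.2) : ℤˣ) : ℤ) * (n : ℤ) : ℤ) : A)) *
          (((s0 ^ 2) ^ ij.1 * (s1 ^ 2) ^ ij.2 : Aˣ) : A) :=
  main D hD k

end Pool.Agent.Results.MP_9ed2cf_gt.SignAlternation
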